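import Pool.Agent.Helper55.AR.Defs

/-! AR, pieces H and `e_exists`: Hausdorff's formula and injections of ordinals in their
cardinalities. -/

set_option autoImplicit false

open Cardinal Ordinal Set Filter Helper23.Pcf Helper55.CP

universe u

namespace Helper55.AR

private theorem haus_step {τ k : Cardinal.{u}} (hτ : ℵ₀ ≤ τ) (hk : τ ≤ k) :
    (Order.succ k) ^ τ ≤ Order.succ k * k ^ τ := by
  have hk0 : ℵ₀ ≤ k := hτ.trans hk
  have hreg : (Order.succ k).IsRegular := Cardinal.isRegular_succ hk0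
  set c := Order.succ k with hc
  have hkc : k < c := Order.lt_succ k
  have hbd : ∀ f : τ.out → c.ord.ToType, ∃ b, ∀ i, f i < b := by
    intro f
    by_contra hcon
    push Not at hcon
    have h1 : IsCofinal (Set.range f) := by
      intro b
      obtain ⟨i, hi⟩ := hcon b
      exact ⟨f i, ⟨i, rfl⟩, hi⟩
    have h2 := Order.cof_le h1
    rw [Ordinal.cof_toType, hreg.cof_eq] at h2
    have h3 : #(Set.range f) ≤ τ := Cardinal.mk_range_le.trans (by rw [Cardinal.mk_out])
    exact absurd (h2.trans (h3.trans hk)) (not_le.2 hkc)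
  choose b hb using hbd
  have h1 : c ^ τ = #(τ.out → c.ord.ToType) := by
    rw [← Cardinal.power_def, Cardinal.mk_out, Cardinal.mk_ord_toType]
  have h2 : #(τ.out → c.ord.ToType) ≤ #(Σ x : c.ord.ToType, (τ.out → Set.Iio x)) := by
    refine Cardinal.mk_le_of_injective
      (f := fun f => (⟨b f, fun i => ⟨f i, hb f i⟩⟩ : Σ x : c.ord.ToType, (τ.out → Set.Iio x))) ?_
    intro f g hfg
    have h3 : ∀ (p q : Σ x : c.ord.ToType, (τ.out → Set.Iio x)), p = q →
        ∀ i, (p.2 i : c.ord.ToType) = q.2 i := by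
      rintro p q rfl i
      rfl
    funext i
    exact h3 _ _ hfg i
  have h4 : ∀ x : c.ord.ToType, #(Set.Iio x) ≤ k := by
    intro x
    have := Cardinal.mk_Iio_toType_ord_lt x
    exact Order.lt_succ_iff.1 this
  rw [h1]
  refine h2.trans ?_
  rw [Cardinal.mk_sigma]
  calc Cardinal.sum (fun x : c.ord.ToType => #(τ.out → Set.Iio x))
      ≤ Cardinal.sum (fun _ : c.ord.ToType => k ^ τ) := by
        refine Cardinal.sum_le_sum _ _ fun x => ?_
        rw [← Cardinal.power_def, Cardinal.mk_out]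
        exact Cardinal.power_le_power_right (h4 x)
    _ = c * k ^ τ := by
        rw [Cardinal.sum_const', Cardinal.mk_ord_toType]

/-- H (Hausdorff) -/
theorem succN_power_le {τ : Cardinal.{u}} (hτ : ℵ₀ ≤ τ) (n : ℕ) :
    (succN τ n) ^ τ ≤ succN τ n * 2 ^ τ := by
  induction n with
  | zero =>
    show τ ^ τ ≤ τ * 2 ^ τ
    rw [Cardinal.power_self_eq hτ]
    exact le_mul_of_one_le_left' (Cardinal.one_le_aleph0.trans hτ)
  | succ n ih =>
    rw [succN_succ]
    refine (haus_step hτ (le_succN τ n)).trans ?_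
    have h0 : ℵ₀ ≤ succN τ n := hτ.trans (le_succN τ n)
    have h1 : succN τ n ≤ Order.succ (succN τ n) := (Order.lt_succ _).le
    calc Order.succ (succN τ n) * succN τ n ^ τ
        ≤ Order.succ (succN τ n) * (succN τ n * 2 ^ τ) := mul_le_mul_right ih _
      _ = (Order.succ (succN τ n) * succN τ n) * 2 ^ τ := (mul_assoc _ _ _).symm
      _ = Order.succ (succN τ n) * 2 ^ τ := by
          rw [Cardinal.mul_eq_left (h0.trans h1) h1 (Cardinal.aleph0_pos.trans_le h0).ne']

/-- the injections -/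
theorem e_exists : ∃ e e' : Ordinal.{u} → Ordinal.{u} → Ordinal.{u},
    ∀ x y, y < x → e x y < x.card.ord ∧ e' x (e x y) = y := by
  have key : ∀ x : Ordinal.{u}, ∃ g g' : Ordinal.{u} → Ordinal.{u},
      ∀ y, y < x → g y < x.card.ord ∧ g' (g y) = y := by
    intro x
    have h1 : #(Set.Iio x) = #(Set.Iio x.card.ord) := by
      rw [Cardinal.mk_Iio_ordinal, Cardinal.mk_Iio_ordinal, Cardinal.card_ord]
    obtain ⟨F⟩ := Cardinal.eq.1 h1
    classical
    refine ⟨fun y => if hy : y < x then F ⟨y, hy⟩ else 0,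
      fun z => if hz : z < x.card.ord then F.symm ⟨z, hz⟩ else 0, fun y hy => ?_⟩
    have h2 : (F ⟨y, hy⟩ : Ordinal.{u}) < x.card.ord := (F ⟨y, hy⟩).2
    simp only [dif_pos hy, dif_pos h2]
    refine ⟨h2, ?_⟩
    have h3 : (⟨(F ⟨y, hy⟩ : Ordinal.{u}), h2⟩ : Set.Iio x.card.ord) = F ⟨y, hy⟩ := rfl
    rw [h3, Equiv.symm_apply_apply]
  choose g g' hg using key
  exact ⟨g, g', fun x y hy => hg x y hy⟩

end Helper55.AR
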